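import Pool.Agent.N912.LC.Stm
import Pool.Agent.W78.GA.Basic
import Pool.Agent.N912.EP.W371EGBij

/-!
# Project LC, task LC1 (helper426): basic lemmas on the multiplication by `δ/m`
-/

set_option autoImplicit false

namespace Pool.Agent.N426.LC

open Finset Filter
open Pool.Agent.W78.GA
open Pool.Agent.N912.EP.W78EG
open Pool.Agent.N912.EP.W371EG (qd dt_mul dt_swap)
open Pool.Agent.N912.LC

variable {t c : ℤ} {m p : ℕ} {r₀ r : ℤ}

theorem ip_mul (hD : t ^ 2 < 4 * c) (q v w : Qd t c) : ip (q * v) (q * w) = nm q * ip v w := by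
  rw [nm_cast hD]
  unfold ip
  simp only [QuadraticAlgebra.re_mul, QuadraticAlgebra.im_mul]
  ring

/-- the product of an element with conjugate in the ideal and an element of the ideal is divisible
by `m` -/
theorem dvd_mul_im {δ v : Qd t c} (hδ : lat m r₀ (star δ)) (hv : lat m r₀ v) :
    (m : ℤ) ∣ (δ * v).im := by
  unfold lat at hδ hv
  simp only [QuadraticAlgebra.re_star, QuadraticAlgebra.im_star] at hδ
  have e : (δ * v).im = (δ.re + t * δ.im + r₀ * -δ.im) * v.im + (v.re + r₀ * v.im) * δ.im := by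
    simp only [QuadraticAlgebra.im_mul]
    ring
  rw [e]
  exact dvd_add (hδ.mul_right _) (hv.mul_right _)

theorem dvd_mul_re (hr : (m : ℤ) ∣ r₀ ^ 2 - t * r₀ + c) {δ v : Qd t c}
    (hδ : lat m r₀ (star δ)) (hv : lat m r₀ v) : (m : ℤ) ∣ (δ * v).re := by
  unfold lat at hδ hv
  simp only [QuadraticAlgebra.re_star, QuadraticAlgebra.im_star] at hδ
  have e : (δ * v).re = (δ.re + t * δ.im + r₀ * -δ.im) * v.re +
      (v.re + r₀ * v.im) * ((r₀ - t) * δ.im) + (r₀ ^ 2 - t * r₀ + c) * (-(δ.im * v.im)) := by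
    simp only [QuadraticAlgebra.re_mul]
    ring
  rw [e]
  exact dvd_add (dvd_add (hδ.mul_right _) (hv.mul_right _)) (hr.mul_right _)

/-- `m * (δ v / m) = δ v` -/
theorem dl_spec (hI : Iv t c m r₀) {δ v : Qd t c} (hδ : lat m r₀ (star δ)) (hv : lat m r₀ v) :
    (m : Qd t c) * dl m δ v = δ * v := by
  have h1 := dvd_mul_re hI.dvd hδ hv
  have h2 := dvd_mul_im hδ hv
  apply QuadraticAlgebra.ext
  · simp only [QuadraticAlgebra.re_mul, QuadraticAlgebra.re_natCast, QuadraticAlgebra.im_natCast,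
      zero_mul, mul_zero, add_zero]
    exact Int.mul_ediv_cancel' h1
  · simp only [QuadraticAlgebra.im_mul, QuadraticAlgebra.re_natCast, QuadraticAlgebra.im_natCast,
      zero_mul, mul_zero, add_zero]
    exact Int.mul_ediv_cancel' h2

theorem m_ne (hI : Iv t c m r₀) : (m : ℤ) ≠ 0 := by
  have := hI.pos
  omega

/-- cancellation of `m` -/
theorem cancel {n : ℕ} (hn : (n : ℤ) ≠ 0) {a b : Qd t c} (h : (n : Qd t c) * a = n * b) : a = b := by
  apply QuadraticAlgebra.ext
  · have h1 := congrArg QuadraticAlgebra.re h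
    simp only [QuadraticAlgebra.re_mul, QuadraticAlgebra.re_natCast, QuadraticAlgebra.im_natCast,
      zero_mul, mul_zero, add_zero] at h1
    exact mul_left_cancel₀ hn h1
  · have h1 := congrArg QuadraticAlgebra.im h
    simp only [QuadraticAlgebra.im_mul, QuadraticAlgebra.re_natCast, QuadraticAlgebra.im_natCast,
      zero_mul, mul_zero, add_zero] at h1
    exact mul_left_cancel₀ hn h1

theorem nm_nat_mul (n : ℕ) (v : Qd t c) : nm ((n : Qd t c) * v) = n ^ 2 * nm v := by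
  rw [nm_mul, nm_natCast]

theorem dt_nat_mul (n : ℕ) (v w : Qd t c) :
    dt ((n : Qd t c) * v) ((n : Qd t c) * w) = (n : ℤ) ^ 2 * dt v w := by
  unfold dt
  simp only [QuadraticAlgebra.re_mul, QuadraticAlgebra.im_mul, QuadraticAlgebra.re_natCast,
    QuadraticAlgebra.im_natCast]
  ring

theorem ip_nat_mul (n : ℕ) (v w : Qd t c) :
    ip ((n : Qd t c) * v) ((n : Qd t c) * w) = (n : ℤ) ^ 2 * ip v w := by
  unfold ip
  simp only [QuadraticAlgebra.re_mul, QuadraticAlgebra.im_mul, QuadraticAlgebra.re_natCast,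
    QuadraticAlgebra.im_natCast]
  ring

/-- the norm of `δ v / m` -/
theorem nm_dl (hI : Iv t c m r₀) {δ v : Qd t c} (hn : nm δ = m * p) (hδ : lat m r₀ (star δ))
    (hv : lat m r₀ v) : m * nm (dl m δ v) = p * nm v := by
  have h := congrArg nm (dl_spec hI hδ hv)
  rw [nm_nat_mul, nm_mul, hn] at h
  have h0 : 0 < m := hI.pos
  apply Nat.eq_of_mul_eq_mul_left h0
  linarith

/-- the determinant of `δ v / m` and `δ w / m` -/
theorem dt_dl (hD : t ^ 2 < 4 * c) (hI : Iv t c m r₀) {δ v w : Qd t c} (hn : nm δ = m * p)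
    (hδ : lat m r₀ (star δ)) (hv : lat m r₀ v) (hw : lat m r₀ w) :
    (m : ℤ) * dt (dl m δ v) (dl m δ w) = p * dt v w := by
  have h := dt_mul hD δ v w
  rw [← dl_spec hI hδ hv, ← dl_spec hI hδ hw, dt_nat_mul, hn] at h
  apply mul_left_cancel₀ (m_ne hI)
  push_cast at h
  linarith

theorem ip_dl (hD : t ^ 2 < 4 * c) (hI : Iv t c m r₀) {δ v w : Qd t c} (hn : nm δ = m * p)
    (hδ : lat m r₀ (star δ)) (hv : lat m r₀ v) (hw : lat m r₀ w) :
    (m : ℤ) * ip (dl m δ v) (dl m δ w) = p * ip v w := by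
  have h := ip_mul hD δ v w
  rw [← dl_spec hI hδ hv, ← dl_spec hI hδ hw, ip_nat_mul, hn] at h
  apply mul_left_cancel₀ (m_ne hI)
  push_cast at h
  linarith

theorem pp_dl (hD : t ^ 2 < 4 * c) (hI : Iv t c m r₀) {δ v w : Qd t c} (hn : nm δ = m * p)
    (hδ : lat m r₀ (star δ)) (hv : lat m r₀ v) (hw : lat m r₀ w) :
    (m : ℤ) * pp (dl m δ v) (dl m δ w) = p * pp v w := by
  have h1 := dt_dl hD hI hn hδ hv hw
  have h2 := ip_dl hD hI hn hδ hv hw
  unfold pp
  linear_combination 2 * h2 + t * h1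

/-- a pair of determinant `m` is mapped to a pair of determinant `p` -/
theorem dt_dl' (hD : t ^ 2 < 4 * c) (hI : Iv t c m r₀) {δ v w : Qd t c} (hn : nm δ = m * p)
    (hδ : lat m r₀ (star δ)) (hv : lat m r₀ v) (hw : lat m r₀ w) (h : dt v w = m) :
    dt (dl m δ v) (dl m δ w) = p := by
  have h1 := dt_dl hD hI hn hδ hv hw
  rw [h] at h1
  apply mul_left_cancel₀ (m_ne hI)
  linarith

/-- the multiplication is injective -/
theorem dl_inj (hD : t ^ 2 < 4 * c) (hI : Iv t c m r₀) {δ v w : Qd t c} (hn : nm δ ≠ 0)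
    (hδ : lat m r₀ (star δ)) (hv : lat m r₀ v) (hw : lat m r₀ w) (h : dl m δ v = dl m δ w) :
    v = w := by
  have h1 : δ * v = δ * w := by rw [← dl_spec hI hδ hv, ← dl_spec hI hδ hw, h]
  have h2 : ((nm δ : ℕ) : Qd t c) * v = ((nm δ : ℕ) : Qd t c) * w := by
    rw [← star_mul_self' hD, mul_assoc, mul_assoc, h1]
  exact cancel (by exact_mod_cast hn) h2

/-- membership in a lattice after division by a number coprime to the modulus -/
theorem lat_of_mul {d n : ℕ} {s : ℤ} (hc : Nat.Coprime d n) {z : Qd t c}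
    (h : lat d s ((n : Qd t c) * z)) : lat d s z := by
  unfold lat at *
  simp only [QuadraticAlgebra.re_mul, QuadraticAlgebra.im_mul, QuadraticAlgebra.re_natCast,
    QuadraticAlgebra.im_natCast, zero_mul, mul_zero, add_zero] at h
  have h1 : (d : ℤ) ∣ (n : ℤ) * (z.re + s * z.im) := by
    have e : (n : ℤ) * (z.re + s * z.im) = n * z.re + s * (n * z.im) := by ring
    rw [e]
    exact h
  exact IsCoprime.dvd_of_dvd_mul_left (Nat.isCoprime_iff_coprime.2 hc) h1

/-- `δ v / m` is in the ideal `{z : lat p r z}` -/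
theorem lat_dl (hI : Iv t c m r₀) {δ v : Qd t c} (hE : El t c m r₀ p δ r) (hv : lat m r₀ v) :
    lat p r (dl m δ v) := by
  apply lat_of_mul hE.cop
  rw [dl_spec hI hE.con hv]
  exact lat_mul_left hE.dvd v hE.lt

/-! ### the inverse -/

/-- `δ * (star δ * z / p) = m z` for `z` in the ideal `{z : lat p r z}` -/
theorem mul_qd (hD : t ^ 2 < 4 * c) (hp : p ≠ 0) {q z : Qd t c} (hq : nm q = m * p)
    (hlq : lat p r q) (hr : (p : ℤ) ∣ r ^ 2 - t * r + c) (hz : lat p r z) :
    q * qd p q z = (m : Qd t c) * z := by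
  have hp' : (p : ℤ) ≠ 0 := by exact_mod_cast hp
  have hn : (m : ℤ) * p = q.re ^ 2 + t * q.re * q.im + c * q.im ^ 2 := by
    rw [← nm_cast hD, hq]
    push_cast
    ring
  unfold lat at hlq hz
  have d1 : (p : ℤ) ∣ dt q z := by
    have : dt q z = (q.re + r * q.im) * z.im - q.im * (z.re + r * z.im) := by unfold dt; ring
    rw [this]
    exact dvd_sub (hlq.mul_right _) (hz.mul_left _)
  have d2 : (p : ℤ) ∣ ip q z := by
    have : ip q z = (q.re + r * q.im) * z.re + (t - r) * q.im * (z.re + r * z.im) +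
        q.im * z.im * (r ^ 2 - t * r + c) := by unfold ip; ring
    rw [this]
    exact dvd_add (dvd_add (hlq.mul_right _) (hz.mul_left _)) (hr.mul_left _)
  obtain ⟨s, hs⟩ := d1
  obtain ⟨u, hu⟩ := d2
  have e1 : qd p q z = ⟨u, s⟩ := by
    unfold qd
    rw [hs, hu, Int.mul_ediv_cancel_left _ hp', Int.mul_ediv_cancel_left _ hp']
  rw [e1]
  unfold dt at hs
  unfold ip at hu
  apply QuadraticAlgebra.ext
  · apply mul_left_cancel₀ hp'
    simp only [QuadraticAlgebra.re_mul, QuadraticAlgebra.re_natCast, QuadraticAlgebra.im_natCast,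
      zero_mul, mul_zero, add_zero]
    linear_combination (-q.re) * hu + c * q.im * hs - z.re * hn
  · apply mul_left_cancel₀ hp'
    simp only [QuadraticAlgebra.im_mul, QuadraticAlgebra.re_natCast, QuadraticAlgebra.im_natCast,
      zero_mul, mul_zero, add_zero]
    linear_combination (-q.im) * hu - (q.re + t * q.im) * hs - z.im * hn

/-- `star δ * z / p` is in the ideal `{z : lat m r₀ z}` -/
theorem lat_qd (hD : t ^ 2 < 4 * c) (hI : Iv t c m r₀) (hp : p ≠ 0) {δ z : Qd t c}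
    (hE : El t c m r₀ p δ r) (hz : lat p r z) : lat m r₀ (qd p δ z) := by
  have h1 : (p : Qd t c) * qd p δ z = star δ * z := by
    have h2 := mul_qd hD hp hE.nrm hE.lt hE.dvd hz
    have h3 : (m : Qd t c) * ((p : Qd t c) * qd p δ z) = m * (star δ * z) := by
      calc (m : Qd t c) * ((p : Qd t c) * qd p δ z) = ((nm δ : ℕ) : Qd t c) * qd p δ z := by
            rw [hE.nrm]; push_cast; ring
        _ = star δ * (δ * qd p δ z) := by rw [← star_mul_self' hD]; ring
        _ = star δ * (m * z) := by rw [h2]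
        _ = m * (star δ * z) := by ring
    exact cancel (m_ne hI) h3
  apply lat_of_mul hE.cop.symm
  rw [h1]
  exact lat_mul_left hI.dvd z hE.con

theorem dl_qd (hD : t ^ 2 < 4 * c) (hI : Iv t c m r₀) (hp : p ≠ 0) {δ z : Qd t c}
    (hE : El t c m r₀ p δ r) (hz : lat p r z) : dl m δ (qd p δ z) = z := by
  apply cancel (m_ne hI)
  rw [dl_spec hI hE.con (lat_qd hD hI hp hE hz), mul_qd hD hp hE.nrm hE.lt hE.dvd hz]

theorem nm_ne (hI : Iv t c m r₀) (hp : p ≠ 0) {δ : Qd t c} (hn : nm δ = m * p) : nm δ ≠ 0 := by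
  rw [hn]
  exact mul_ne_zero (by have := hI.pos; omega) hp

theorem qd_dl (hD : t ^ 2 < 4 * c) (hI : Iv t c m r₀) (hp : p ≠ 0) {δ v : Qd t c}
    (hE : El t c m r₀ p δ r) (hv : lat m r₀ v) : qd p δ (dl m δ v) = v := by
  have h1 := lat_dl hI hE hv
  exact dl_inj hD hI (nm_ne hI hp hE.nrm) hE.con (lat_qd hD hI hp hE h1) hv
    (dl_qd hD hI hp hE h1)

/-- the existence of `r` -/
theorem exists_el (hD : t ^ 2 < 4 * c) (hp : p.Prime) (hpm : ¬ p ∣ m) {δ : Qd t c}
    (hn : nm δ = m * p) (hδ : lat m r₀ (star δ)) : ∃ r : ℤ, El t c m r₀ p δ r := by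
  have hcop : Nat.Coprime p m := (Nat.Prime.coprime_iff_not_dvd hp).2 hpm
  have hP : Prime (p : ℤ) := Nat.prime_iff_prime_int.1 hp
  have hN : (m : ℤ) * p = δ.re ^ 2 + t * δ.re * δ.im + c * δ.im ^ 2 := by
    rw [← nm_cast hD, hn]
    push_cast
    ring
  have him : ¬ (p : ℤ) ∣ δ.im := by
    intro h
    have h1 : (p : ℤ) ∣ δ.re ^ 2 := by
      have e : δ.re ^ 2 = m * p - δ.im * (t * δ.re + c * δ.im) := by linear_combination -hN
      rw [e]
      exact dvd_sub (dvd_mul_left _ _) (h.mul_right _)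
    have h2 : (p : ℤ) ∣ δ.re := hP.dvd_of_dvd_pow h1
    obtain ⟨a, ha⟩ := h
    obtain ⟨b, hb⟩ := h2
    have h3 : (m : ℤ) = p * (b ^ 2 + t * b * a + c * a ^ 2) := by
      have hp0 : (p : ℤ) ≠ 0 := hP.ne_zero
      apply mul_right_cancel₀ hp0
      rw [hN, ha, hb]
      ring
    apply hpm
    exact_mod_cast (Dvd.intro _ h3.symm : (p : ℤ) ∣ m)
  obtain ⟨a, b, hab⟩ : IsCoprime δ.im (p : ℤ) :=
    ((Prime.coprime_iff_not_dvd hP).2 him).symm
  refine ⟨-(a * δ.re), hn, hδ, ?_, ?_, hcop⟩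
  · unfold lat
    have e : δ.re + -(a * δ.re) * δ.im = p * (b * δ.re) := by linear_combination -δ.re * hab
    rw [e]
    exact dvd_mul_right _ _
  · have e : (-(a * δ.re)) ^ 2 - t * (-(a * δ.re)) + c =
        p * (a ^ 2 * m + (t * a * δ.re) * b + c * (b * (1 + a * δ.im))) := by
      have h4 : a ^ 2 * ((m : ℤ) * p) = a ^ 2 * (δ.re ^ 2 + t * δ.re * δ.im + c * δ.im ^ 2) := by
        rw [hN]
      linear_combination -h4 - (t * a * δ.re + c * (1 + a * δ.im)) * hab
    rw [e]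
    exact dvd_mul_right _ _

end Pool.Agent.N426.LC
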