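import Pool.Agent.N426.LC.Dl
import Pool.Agent.N912.EP.N232EL11

/-!
# Project LC, task LC1 (helper426): the bijection and the estimate for fixed `X` in an ideal class
-/

set_option autoImplicit false

namespace Pool.Agent.N426.LC

open Finset Filter
open Pool.Agent.W78.GA
open Pool.Agent.W78.EC (Tr av)
open Pool.Agent.N912.EP.W78EG
open Pool.Agent.N912.EP.W371EG (qd dt_mul dt_swap mem_cone mem_edge edge_unique lat_of_dt)
open Pool.Agent.N912.EP.W99EG (PQ_mem th_sum good_edge ite_parts mul_parts)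
open Pool.Agent.N912.EP.N232EL (av_lin th_sumu)
open Pool.Agent.N912.LC

variable {t c : ℤ} {f : ℕ} {χ : PS f} {m : ℕ} {r₀ : ℤ}

theorem bijl (hF : Fd t c f χ) (hI : Iv t c m r₀) : S_BIJL t c χ m r₀ := by
  classical
  have hD : t ^ 2 < 4 * c := by
    have h1 := hF.disc
    have h2 := hF.three
    have h3 : (3 : ℤ) ≤ f := by exact_mod_cast h2
    linarith
  intro K κ Q X p δ r u v hK hκ hQ hX hpQ hE
  have hp : p.Prime := by
    unfold PQ at hpQ
    rw [mem_filter] at hpQ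
    exact hpQ.2.1
  have hp0 : p ≠ 0 := hp.ne_zero
  have hpR : (0 : ℝ) < p := by exact_mod_cast hp.pos
  have hmR : (0 : ℝ) < m := by exact_mod_cast hI.pos
  -- the norms
  have hnm : ∀ v : Qd t c, lat m r₀ v → ((nm (dl m δ v) : ℝ) ≤ X ↔ (nm v : ℝ) ≤ m * (X / p)) := by
    intro v hv
    have h1 : (m : ℝ) * nm (dl m δ v) = p * nm v := by
      exact_mod_cast nm_dl hI hE.nrm hE.con hv
    have h2 : (m : ℝ) * (X / p) = m * X / p := by ring
    rw [h2, le_div_iff₀ hpR, ← mul_le_mul_iff_right₀ hmR, h1, mul_comm (nm v : ℝ) (p : ℝ)]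
  -- left side as a sum over a sigma type
  have hL : ∑ e ∈ good t c K κ Q X, ∑ v' ∈ cone X e.1 e.2, ∑ w' ∈ cone X e.1 e.2,
      (if dt v' w' = p ∧ lat p r v' then u v' * v w' else 0) =
      ∑ s ∈ ((good t c K κ Q X).sigma (fun e => cone X e.1 e.2 ×ˢ cone X e.1 e.2)).filter
        (fun s => dt s.2.1 s.2.2 = p ∧ lat p r s.2.1), u s.2.1 * v s.2.2 := by
    rw [sum_filter, sum_sigma]
    refine sum_congr rfl fun e _ => ?_
    rw [sum_product]
  rw [hL]
  refine sum_nbij (fun s => (qd p δ s.2.1, qd p δ s.2.2)) ?_ ?_ ?_ ?_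
  · -- maps to
    rintro ⟨e, v', w'⟩ hs
    rw [mem_filter, mem_sigma, mem_product] at hs
    obtain ⟨⟨he, hv, hw⟩, hdt, hl⟩ := hs
    simp only at he hv hw hdt hl
    have hv1 := (mem_cone hD).1 hv
    have hw1 := (mem_cone hD).1 hw
    have hlw : lat p r w' := lat_of_dt hp hv1.1.1 hl (by rw [hdt])
    have lv := lat_qd hD hI hp0 hE hl
    have lw := lat_qd hD hI hp0 hE hlw
    have ev := dl_qd hD hI hp0 hE hl
    have ew := dl_qd hD hI hp0 hE hlw
    have hpos : ∀ z : Qd t c, lat m r₀ z → 1 ≤ nm (dl m δ z) → 1 ≤ nm z := by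
      intro z hz h1
      have h2 := nm_dl hI hE.nrm hE.con hz
      have h3 : 0 < m * nm (dl m δ z) := Nat.mul_pos hI.pos h1
      rw [h2] at h3
      exact Nat.pos_of_mul_pos_left h3
    rw [mem_filter]
    refine ⟨?_, e, he, ?_, ?_⟩
    · unfold DL
      rw [mem_filter, mem_product, mem_ball hD, mem_ball hD]
      refine ⟨⟨⟨?_, ?_⟩, ⟨?_, ?_⟩⟩, lv, lw, ?_⟩
      · apply hpos _ lv
        simp only [ev]
        exact (one_le_nm hD).2 (prim_ne_zero hv1.1.1)
      · rw [← hnm _ lv]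
        simp only [ev]
        exact hv1.1.2
      · apply hpos _ lw
        simp only [ew]
        exact (one_le_nm hD).2 (prim_ne_zero hw1.1.1)
      · rw [← hnm _ lw]
        simp only [ew]
        exact hw1.1.2
      · have h3 := dt_dl hD hI hE.nrm hE.con lv lw
        rw [ev, ew, hdt] at h3
        have hp' : (p : ℤ) ≠ 0 := by exact_mod_cast hp0
        apply mul_left_cancel₀ hp'
        rw [← h3]
        ring
    · simp only [ev]; exact hv
    · simp only [ew]; exact hw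
  · -- injective
    rintro ⟨e, v', w'⟩ hs ⟨e2, v2, w2⟩ hs2 heq
    rw [mem_coe, mem_filter, mem_sigma, mem_product] at hs hs2
    obtain ⟨⟨he, hv, hw⟩, hdt, hl⟩ := hs
    obtain ⟨⟨he2, hv2, hw2⟩, hdt2, hl2⟩ := hs2
    simp only at he hv hw hdt hl he2 hv2 hw2 hdt2 hl2
    have hv1 := (mem_cone hD).1 hv
    have hv21 := (mem_cone hD).1 hv2
    have hlw : lat p r w' := lat_of_dt hp hv1.1.1 hl (by rw [hdt])
    have hlw2 : lat p r w2 := lat_of_dt hp hv21.1.1 hl2 (by rw [hdt2])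
    simp only [Prod.mk.injEq] at heq
    have e1 : v' = v2 := by
      rw [← dl_qd hD hI hp0 hE hl, ← dl_qd hD hI hp0 hE hl2, heq.1]
    have e2' : w' = w2 := by
      rw [← dl_qd hD hI hp0 hE hlw, ← dl_qd hD hI hp0 hE hlw2, heq.2]
    subst e1 e2'
    have he' : e ∈ edge t c (X / (K * Q)) := by
      unfold good at he; exact (mem_filter.1 he).1
    have he2' : e2 ∈ edge t c (X / (K * Q)) := by
      unfold good at he2; exact (mem_filter.1 he2).1
    have := edge_unique hD he' he2' hv1.2.1 hv1.2.2 hv21.2.1 hv21.2.2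
    subst this
    rfl
  · -- surjective
    rintro ⟨a, b⟩ hab
    rw [mem_coe, mem_filter] at hab
    obtain ⟨hd, g, hg, hga, hgb⟩ := hab
    unfold DL at hd
    rw [mem_filter] at hd
    obtain ⟨-, la, lb, hdt⟩ := hd
    simp only at la lb hdt hga hgb
    refine ⟨⟨g, (dl m δ a, dl m δ b)⟩, ?_, ?_⟩
    · rw [mem_coe, mem_filter, mem_sigma, mem_product]
      refine ⟨⟨hg, hga, hgb⟩, ?_, ?_⟩
      · exact dt_dl' hD hI hE.nrm hE.con la lb hdt
      · exact lat_dl hI hE la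
    · simp only
      rw [qd_dl hD hI hp0 hE la, qd_dl hD hI hp0 hE lb]
  · rintro ⟨e, v', w'⟩ hs
    rw [mem_filter, mem_sigma, mem_product] at hs
    obtain ⟨⟨he, hv, hw⟩, hdt, hl⟩ := hs
    simp only at he hv hw hdt hl
    have hv1 := (mem_cone hD).1 hv
    have hlw : lat p r w' := lat_of_dt hp hv1.1.1 hl (by rw [hdt])
    simp only
    rw [dl_qd hD hI hp0 hE hl, dl_qd hD hI hp0 hE hlw]

open scoped Classical in
/-- the bijection for complex functions -/
theorem bijC (h5 : S_BIJL t c χ m r₀) (K : ℕ) (κ : ℝ) (Q : ℕ) (X : ℝ) (p : ℕ) (δ : Qd t c) (r : ℤ)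
    (u v : Qd t c → ℂ) (hK : 1 ≤ K) (hκ : 0 < κ) (hQ : 1 ≤ Q) (hX : f * (K * Q : ℝ) ≤ X)
    (hp : p ∈ PQ χ Q) (hE : El t c m r₀ p δ r) :
    ∑ e ∈ good t c K κ Q X, ∑ v' ∈ cone X e.1 e.2, ∑ w' ∈ cone X e.1 e.2,
      (if dt v' w' = p ∧ lat p r v' then u v' * v w' else 0) =
    ∑ e ∈ (DL t c m r₀ (X / p)).filter (InL m K κ Q X δ), u (dl m δ e.1) * v (dl m δ e.2) := by
  have e1 := h5 K κ Q X p δ r (fun z => (u z).re) (fun z => (v z).re) hK hκ hQ hX hp hE
  have e2 := h5 K κ Q X p δ r (fun z => (u z).im) (fun z => (v z).im) hK hκ hQ hX hp hE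
  have e3 := h5 K κ Q X p δ r (fun z => (u z).re) (fun z => (v z).im) hK hκ hQ hX hp hE
  have e4 := h5 K κ Q X p δ r (fun z => (u z).im) (fun z => (v z).re) hK hκ hQ hX hp hE
  simp only [ite_parts, sum_add_distrib, sum_sub_distrib, ← mul_sum, ← Complex.ofReal_sum]
  rw [e1, e2, e3, e4]
  have e5 : ∀ e : Qd t c × Qd t c, u (dl m δ e.1) * v (dl m δ e.2) =
      (((u (dl m δ e.1)).re * (v (dl m δ e.2)).re : ℝ) : ℂ) -
      (((u (dl m δ e.1)).im * (v (dl m δ e.2)).im : ℝ) : ℂ) +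
      Complex.I * ((((u (dl m δ e.1)).re * (v (dl m δ e.2)).im : ℝ) : ℂ) +
        (((u (dl m δ e.1)).im * (v (dl m δ e.2)).re : ℝ) : ℂ)) := fun e => mul_parts _ _
  rw [sum_congr rfl fun e _ => e5 e]
  rw [sum_add_distrib, sum_sub_distrib, ← mul_sum, sum_add_distrib]
  push_cast
  rfl

open scoped Classical in
/-- PER in an ideal -/
theorem perl (_ : Fd t c f χ) (_ : Iv t c m r₀) (h5 : S_BIJL t c χ m r₀) : S_PERL t c χ m r₀ := by
  intro K κ Q X A d₁ d₂ lab ϖ r u ζ₁ ζ₂ hK hκ hQ hX hϖ hζ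
  have hQ0 : (0 : ℝ) < Q := by exact_mod_cast hQ
  have hQC : (Q : ℂ) ≠ 0 := by
    have : Q ≠ 0 := by omega
    exact_mod_cast this
  set FF : ℕ → ℂ := fun p => ∑ e ∈ (DL t c m r₀ (X / p)).filter (InL m K κ Q X (ϖ p)),
    d₁ (lab (dl m (ϖ p) e.1)) * d₂ (lab (dl m (ϖ p) e.2)) with hF
  set Z : ℕ → Qd t c × Qd t c → ℂ := fun p e => ((ζ₁ p (TT lab X e) (res p e) : ℝ) : ℂ) +
    Complex.I * ((ζ₂ p (TT lab X e) (res p e) : ℝ) : ℂ) with hZ
  set V : ℕ → Qd t c × Qd t c → ℂ := fun p e => ((av p (ζ₁ p) (TT lab X e) : ℝ) : ℂ) +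
    Complex.I * ((av p (ζ₂ p) (TT lab X e) : ℝ) : ℂ) with hV
  -- step a
  have hA : ∀ p ∈ PQ χ Q, ((p : ℂ) + 1) * FF p = 2 * Q * ∑ e ∈ good t c K κ Q X, Z p e := by
    intro p hp
    have h1 := bijC h5 K κ Q X p (ϖ p) (r p) (fun z => d₁ (lab z)) (fun z => d₂ (lab z)) hK hκ hQ
      hX hp (hϖ p hp)
    rw [hF]
    simp only
    rw [← h1, sum_congr rfl fun e he => (hζ e he p hp).1, ← mul_sum, ← mul_assoc]
    congr 1
    push_cast
    field_simp
  -- step b
  have hBB : 2 * (Q : ℂ) * ∑ e ∈ good t c K κ Q X, ∑ p ∈ PQ χ Q, (Real.log p : ℂ) * (u p * V p e) =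
      ∑ e ∈ good t c K κ Q X, ∑ v ∈ cone X e.1 e.2, ∑ w ∈ cone X e.1 e.2,
        d₁ (lab v) * d₂ (lab w) * (u (dt v w).toNat * (th χ Q (dt v w) : ℂ)) := by
    rw [mul_sum]
    refine sum_congr rfl fun e he => ?_
    have h1 : ∀ p ∈ PQ χ Q, (Real.log p : ℂ) * (u p * V p e) =
        1 / (2 * Q) * ∑ z ∈ cone X e.1 e.2, ∑ w ∈ cone X e.1 e.2,
          (d₁ (lab z) * d₂ (lab w)) *
            ((Real.log p : ℂ) * (u p * if dt z w = p then (1 : ℂ) else 0)) := by
      intro p hp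
      have h2 : V p e = _ := (hζ e he p hp).2
      rw [h2]
      have h3 : (Real.log p : ℂ) * (u p * (((1 / (2 * (Q : ℝ)) : ℝ) : ℂ) *
          ∑ z ∈ cone X e.1 e.2, ∑ w ∈ cone X e.1 e.2,
          (if dt z w = p then d₁ (lab z) * d₂ (lab w) else 0))) =
          1 / (2 * Q) * (((Real.log p : ℂ) * u p) * ∑ z ∈ cone X e.1 e.2, ∑ w ∈ cone X e.1 e.2,
          (if dt z w = p then d₁ (lab z) * d₂ (lab w) else 0)) := by
        push_cast
        ring
      rw [h3]
      congr 1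
      rw [mul_sum]
      refine sum_congr rfl fun z _ => ?_
      rw [mul_sum]
      refine sum_congr rfl fun w _ => ?_
      split_ifs <;> ring
    rw [sum_congr rfl h1, ← mul_sum, ← mul_assoc, mul_one_div_cancel (by
      exact mul_ne_zero two_ne_zero hQC), one_mul, sum_comm]
    refine sum_congr rfl fun z _ => ?_
    rw [sum_comm]
    refine sum_congr rfl fun w _ => ?_
    rw [← mul_sum, th_sumu]
  -- decomposition
  set D : ℕ → Qd t c × Qd t c → ℂ := fun p e => u p * Z p e - u p * V p e with hD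
  have hdec : ∑ p ∈ PQ χ Q, ((Real.log p * ((p : ℝ) + 1) : ℝ) : ℂ) * (u p * FF p) =
      2 * Q * ∑ e ∈ good t c K κ Q X, ∑ p ∈ PQ χ Q, (Real.log p : ℂ) * D p e +
      2 * Q * ∑ e ∈ good t c K κ Q X, ∑ p ∈ PQ χ Q, (Real.log p : ℂ) * (u p * V p e) := by
    rw [← mul_add, ← sum_add_distrib]
    have h1 : ∀ e ∈ good t c K κ Q X, (∑ p ∈ PQ χ Q, (Real.log p : ℂ) * D p e +
        ∑ p ∈ PQ χ Q, (Real.log p : ℂ) * (u p * V p e)) =
        ∑ p ∈ PQ χ Q, ((Real.log p : ℂ) * u p) * Z p e := by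
      intro e _
      rw [← sum_add_distrib]
      refine sum_congr rfl fun p _ => ?_
      rw [hD]
      ring
    rw [sum_congr rfl h1, sum_comm, mul_sum]
    refine sum_congr rfl fun p hp => ?_
    rw [← mul_sum]
    have h2 := hA p hp
    have h4 : ((Real.log p * ((p : ℝ) + 1) : ℝ) : ℂ) = (Real.log p : ℂ) * ((p : ℂ) + 1) := by
      push_cast
      ring
    rw [h4]
    calc (Real.log p : ℂ) * ((p : ℂ) + 1) * (u p * FF p) =
        (Real.log p : ℂ) * u p * (((p : ℂ) + 1) * FF p) := by ring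
      _ = _ := by rw [h2]; ring
  rw [hdec, hBB]
  refine (norm_add_le _ _).trans (add_le_add ?_ le_rfl)
  rw [norm_mul]
  have h2Q : ‖(2 * (Q : ℂ))‖ = 2 * Q := by
    rw [norm_mul, Complex.norm_natCast]
    simp
  rw [h2Q]
  refine mul_le_mul_of_nonneg_left ?_ (by positivity)
  refine (norm_sum_le _ _).trans ?_
  refine le_trans (sum_le_sum fun e _ => ?_) (sum_le_sum_of_subset_of_nonneg
    (fun e he => good_edge he) (fun _ _ _ => add_nonneg (abs_nonneg _) (abs_nonneg _)))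
  have h3 : ∑ p ∈ PQ χ Q, (Real.log p : ℂ) * D p e =
      ((∑ p ∈ PQ χ Q, Real.log p *
          (((u p).re * ζ₁ p (TT lab X e) (res p e) - (u p).im * ζ₂ p (TT lab X e) (res p e)) -
            av p (fun T y => (u p).re * ζ₁ p T y - (u p).im * ζ₂ p T y) (TT lab X e)) : ℝ) : ℂ) +
      Complex.I * ((∑ p ∈ PQ χ Q, Real.log p *
          (((u p).re * ζ₂ p (TT lab X e) (res p e) + (u p).im * ζ₁ p (TT lab X e) (res p e)) -
            av p (fun T y => (u p).re * ζ₂ p T y + (u p).im * ζ₁ p T y) (TT lab X e)) : ℝ) : ℂ) := by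
    rw [Complex.ofReal_sum, Complex.ofReal_sum, mul_sum, ← sum_add_distrib]
    refine sum_congr rfl fun p _ => ?_
    have a1 : av p (fun T y => (u p).re * ζ₁ p T y - (u p).im * ζ₂ p T y) (TT lab X e) =
        (u p).re * av p (ζ₁ p) (TT lab X e) + (-(u p).im) * av p (ζ₂ p) (TT lab X e) := by
      rw [← av_lin]
      congr 1
      funext T y
      ring
    have a2 : av p (fun T y => (u p).re * ζ₂ p T y + (u p).im * ζ₁ p T y) (TT lab X e) =
        (u p).re * av p (ζ₂ p) (TT lab X e) + (u p).im * av p (ζ₁ p) (TT lab X e) := av_lin _ _ _ _ _ _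
    rw [a1, a2, hD, hZ, hV]
    simp only
    generalize ζ₁ p (TT lab X e) (res p e) = x₁
    generalize ζ₂ p (TT lab X e) (res p e) = x₂
    generalize av p (ζ₁ p) (TT lab X e) = y₁
    generalize av p (ζ₂ p) (TT lab X e) = y₂
    generalize Real.log p = l
    apply Complex.ext <;> simp <;> first | ring1 | (left; ring1)
  rw [h3]
  refine (norm_add_le _ _).trans ?_
  rw [norm_mul, Complex.norm_I, one_mul, Complex.norm_real, Complex.norm_real, Real.norm_eq_abs,
    Real.norm_eq_abs]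

end Pool.Agent.N426.LC
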